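import Mathlib

/-!
# From the graphs to the statement S11896 (transfer to `Fin n` and asymptotics)
-/

set_option autoImplicit false
open Finset Classical

namespace MCut

theorem two_mul_edges {n : ℕ} (G : SimpleGraph (Fin n)) [DecidableRel G.Adj] :
    2 * G.edgeFinset.card = (univ.filter (fun p : Fin n × Fin n => G.Adj p.1 p.2)).card := by
  rw [← SimpleGraph.sum_degrees_eq_twice_card_edges, Finset.card_filter, Fintype.sum_prod_type]
  apply Finset.sum_congr rfl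
  intro v _
  rw [← SimpleGraph.card_neighborFinset_eq_degree, SimpleGraph.neighborFinset_eq_filter,
    Finset.card_filter]

theorem asymp (c ε : ℝ) (hc : 0 < c) (hε : 0 < ε) (t m : ℕ) (ht : 2 ≤ t)
    (htc : 1 < 4 * c ^ 4 * t) (hm : 2 * m = (t ^ 2) ^ 2 * ((t ^ 2 - 1) * t)) :
    (t : ℝ) ^ 5 / 4 < c * (m : ℝ) ^ ((3 : ℝ) / 4 + ε) := by
  have hm4 : t ^ 7 ≤ 4 * m := by
    have h1 : t ^ 2 ≤ 2 * (t ^ 2 - 1) := by
      have : 4 ≤ t ^ 2 := by nlinarith
      omega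
    calc t ^ 7 = t ^ 5 * t ^ 2 := by ring
      _ ≤ t ^ 5 * (2 * (t ^ 2 - 1)) := Nat.mul_le_mul_left _ h1
      _ = 2 * ((t ^ 2) ^ 2 * ((t ^ 2 - 1) * t)) := by ring
      _ = 4 * m := by rw [← hm]; ring
  have htR : (2 : ℝ) ≤ t := by exact_mod_cast ht
  have hm4R : (t : ℝ) ^ 7 ≤ 4 * m := by exact_mod_cast hm4
  have hm1 : (1 : ℝ) ≤ m := by
    have : (2 : ℝ) ^ 7 ≤ (t : ℝ) ^ 7 := pow_le_pow_left₀ (by norm_num) htR 7
    linarith [show (2 : ℝ) ^ 7 = 128 by norm_num]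
  have hmono : (m : ℝ) ^ ((3 : ℝ) / 4) ≤ (m : ℝ) ^ ((3 : ℝ) / 4 + ε) :=
    Real.rpow_le_rpow_of_exponent_le hm1 (by linarith)
  refine lt_of_lt_of_le ?_ (mul_le_mul_of_nonneg_left hmono hc.le)
  set x := (m : ℝ) ^ ((3 : ℝ) / 4) with hx
  have hx0 : 0 ≤ x := Real.rpow_nonneg (by linarith) _
  have hx4 : x ^ 4 = (m : ℝ) ^ 3 := by
    rw [hx, ← Real.rpow_natCast, ← Real.rpow_mul (by linarith), ← Real.rpow_natCast]
    norm_num
  by_contra hcon
  push Not at hcon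
  have h1 : (c * x) ^ 4 ≤ ((t : ℝ) ^ 5 / 4) ^ 4 :=
    pow_le_pow_left₀ (mul_nonneg hc.le hx0) hcon 4
  rw [mul_pow, hx4] at h1
  have h2 : ((t : ℝ) ^ 7 / 4) ^ 3 ≤ (m : ℝ) ^ 3 := by
    apply pow_le_pow_left₀ (by positivity)
    linarith
  have hc4 : 0 < c ^ 4 := by positivity
  have h3 : c ^ 4 * ((t : ℝ) ^ 7 / 4) ^ 3 ≤ ((t : ℝ) ^ 5 / 4) ^ 4 :=
    (mul_le_mul_of_nonneg_left h2 hc4.le).trans h1
  have ht20 : 0 < (t : ℝ) ^ 20 := by positivity
  have h4 : (t : ℝ) ^ 20 * (4 * c ^ 4 * t) ≤ (t : ℝ) ^ 20 * 1 := by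
    have e1 : c ^ 4 * ((t : ℝ) ^ 7 / 4) ^ 3 = (t : ℝ) ^ 20 * (4 * c ^ 4 * t) / 256 := by ring
    have e2 : ((t : ℝ) ^ 5 / 4) ^ 4 = (t : ℝ) ^ 20 / 256 := by ring
    rw [e1, e2] at h3
    linarith
  have h5 := le_of_mul_le_mul_left h4 ht20
  linarith

theorem final_of (hG : ∃ R : ℕ, ∀ B : ℕ, ∃ t : ℕ, B ≤ t ∧ 2 ≤ t ∧ ∃ (V : Type) (_ : Fintype V)
    (G : SimpleGraph V),
      (∀ f : Fin R → V, ¬ ∀ a b, a ≠ b → G.Adj (f a) (f b)) ∧
      (univ.filter (fun p : V × V => G.Adj p.1 p.2)).card = (t ^ 2) ^ 2 * ((t ^ 2 - 1) * t) ∧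
      ∀ S : Finset V,
        4 * (univ.filter (fun p : V × V => p.1 ∈ S ∧ p.2 ∉ S ∧ G.Adj p.1 p.2)).card ≤
          (univ.filter (fun p : V × V => G.Adj p.1 p.2)).card + t ^ 5) :
    ¬ (∀ (k : ℕ) (H : SimpleGraph (Fin k)),
      ∃ ε : ℝ, 0 < ε ∧ ∃ c : ℝ, 0 < c ∧
        ∀ (n : ℕ) (G : SimpleGraph (Fin n)) [DecidableRel G.Adj],
          H.Free G → 1 ≤ G.edgeFinset.card →
            ∃ S : Finset (Fin n),
              (G.edgeFinset.card : ℝ) / 2
                  + c * (G.edgeFinset.card : ℝ) ^ ((3 : ℝ) / 4 + ε)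
                ≤ (((Finset.univ : Finset (Fin n × Fin n)).filter
                      (fun p => p.1 ∈ S ∧ p.2 ∉ S ∧ G.Adj p.1 p.2)).card : ℝ)) := by
  intro hconj
  obtain ⟨R, hR⟩ := hG
  obtain ⟨ε, hε, c, hc, h⟩ := hconj R ⊤
  obtain ⟨B, hB⟩ := exists_nat_gt (1 / (4 * c ^ 4))
  obtain ⟨t, hBt, ht2, V, iV, G, hfree, hN, hcut⟩ := hR B
  have hc4 : 0 < 4 * c ^ 4 := by positivity
  have htc : 1 < 4 * c ^ 4 * t := by
    have h1 : (B : ℝ) ≤ t := by exact_mod_cast hBt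
    have h2 : 1 / (4 * c ^ 4) < t := lt_of_lt_of_le hB h1
    rw [div_lt_iff₀ hc4] at h2
    linarith
  set e : V ≃ Fin (Fintype.card V) := Fintype.equivFin V
  set G' : SimpleGraph (Fin (Fintype.card V)) := G.comap e.symm with hG'
  have hadj : ∀ a b, G'.Adj a b ↔ G.Adj (e.symm a) (e.symm b) := fun a b => Iff.rfl
  have hfree' : (⊤ : SimpleGraph (Fin R)).Free G' := by
    rintro ⟨f⟩
    apply hfree (fun a => e.symm (f a))
    intro a b hab
    exact (hadj _ _).1 (f.toHom.map_adj hab)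
  have hpairs : (univ.filter (fun p : Fin (Fintype.card V) × Fin (Fintype.card V) =>
      G'.Adj p.1 p.2)).card = (univ.filter (fun p : V × V => G.Adj p.1 p.2)).card := by
    symm
    apply Finset.card_bij (fun p _ => (e p.1, e p.2))
    · intro p hp
      simp only [Finset.mem_filter, Finset.mem_univ, true_and] at hp ⊢
      rw [hadj]
      simpa using hp
    · intro p _ q _ hpq
      simp only [Prod.mk.injEq, EmbeddingLike.apply_eq_iff_eq] at hpq
      exact Prod.ext hpq.1 hpq.2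
    · intro p hp
      simp only [Finset.mem_filter, Finset.mem_univ, true_and] at hp
      refine ⟨(e.symm p.1, e.symm p.2), ?_, by simp⟩
      simp only [Finset.mem_filter, Finset.mem_univ, true_and]
      exact (hadj _ _).1 hp
  have hm2 : 2 * G'.edgeFinset.card = (t ^ 2) ^ 2 * ((t ^ 2 - 1) * t) := by
    rw [two_mul_edges, hpairs, hN]
  have hlt := asymp c ε hc hε t _ ht2 htc hm2
  have hm1 : 1 ≤ G'.edgeFinset.card := by
    by_contra h0
    have h0' : G'.edgeFinset.card = 0 := by omega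
    rw [h0'] at hm2
    have h4 : 4 ≤ t ^ 2 := by nlinarith
    have : 0 < (t ^ 2) ^ 2 * ((t ^ 2 - 1) * t) := by
      apply Nat.mul_pos (by positivity)
      apply Nat.mul_pos (by omega) (by omega)
    omega
  obtain ⟨S, hS⟩ := h _ G' hfree' hm1
  have hcutS := hcut (S.map e.symm.toEmbedding)
  have hcc : (univ.filter (fun p : Fin (Fintype.card V) × Fin (Fintype.card V) =>
      p.1 ∈ S ∧ p.2 ∉ S ∧ G'.Adj p.1 p.2)).card = (univ.filter (fun p : V × V =>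
      p.1 ∈ S.map e.symm.toEmbedding ∧ p.2 ∉ S.map e.symm.toEmbedding ∧ G.Adj p.1 p.2)).card := by
    symm
    apply Finset.card_bij (fun p _ => (e p.1, e p.2))
    · intro p hp
      simp only [Finset.mem_filter, Finset.mem_univ, true_and, Finset.mem_map_equiv,
        Equiv.symm_symm] at hp ⊢
      rw [hadj]
      simpa using hp
    · intro p _ q _ hpq
      simp only [Prod.mk.injEq, EmbeddingLike.apply_eq_iff_eq] at hpq
      exact Prod.ext hpq.1 hpq.2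
    · intro p hp
      simp only [Finset.mem_filter, Finset.mem_univ, true_and] at hp
      refine ⟨(e.symm p.1, e.symm p.2), ?_, by simp⟩
      simp only [Finset.mem_filter, Finset.mem_univ, true_and, Finset.mem_map_equiv,
        Equiv.symm_symm, Equiv.apply_symm_apply]
      exact ⟨hp.1, hp.2.1, (hadj _ _).1 hp.2.2⟩
  rw [← hcc, hN, ← hm2] at hcutS
  have hcutR : 4 * ((univ.filter (fun p : Fin (Fintype.card V) × Fin (Fintype.card V) =>
      p.1 ∈ S ∧ p.2 ∉ S ∧ G'.Adj p.1 p.2)).card : ℝ) ≤ 2 * (G'.edgeFinset.card : ℝ) + (t : ℝ) ^ 5 := by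
    exact_mod_cast hcutS
  linarith

end MCut
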