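import Pool.Agent.helper79.MC.C
import Pool.Agent.helper84.MC.D
import Pool.Agent.helper58.MC.E
import Pool.Agent.helper58.MC.F
import Pool.Agent.helper99.MC.W
import Pool.Agent.helper31.MC.U

/-!
# Final assembly
-/

set_option autoImplicit false
open Finset Classical

namespace MCut

theorem params_aux (Q H T : ℕ) (hQ : Q = 2 ^ 9) (h : 2 * T + 2 = 9 * H) :
    2 ^ (2 * T + 3) ≤ 2 * Q ^ H := by
  subst hQ
  rw [← pow_mul, ← h]
  have : 2 ^ (2 * T + 3) = 2 * 2 ^ (2 * T + 2) := by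
    rw [show 2 * T + 3 = (2 * T + 2) + 1 from rfl, pow_succ]; ring
  rw [this]

theorem exists_params : ∃ Q H T : ℕ, 2 ≤ Q ∧ 8 * Q + 4 * H < T ∧ 2 ^ (2 * T + 3) ≤ 2 * Q ^ H :=
  ⟨2 ^ 9, 8196, 36881, by norm_num, by norm_num, params_aux _ _ _ rfl rfl⟩

theorem arith_aux (t x N : ℕ) (ht : 0 < t) (h : 4 * t * x ≤ t * N + (t ^ 2) ^ 3) :
    4 * x ≤ N + t ^ 5 := by
  have h4 : t * (4 * x) ≤ t * (N + t ^ 5) := by
    calc _ = 4 * t * x := by ring
      _ ≤ t * N + (t ^ 2) ^ 3 := h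
      _ = _ := by ring
  exact Nat.le_of_mul_le_mul_left h4 ht

theorem exists_graph : ∃ R : ℕ, ∀ B : ℕ, ∃ t : ℕ, B ≤ t ∧ 2 ≤ t ∧ ∃ (V : Type) (_ : Fintype V)
    (G : SimpleGraph V),
      (∀ f : Fin R → V, ¬ ∀ a b, a ≠ b → G.Adj (f a) (f b)) ∧
      (univ.filter (fun p : V × V => G.Adj p.1 p.2)).card = (t ^ 2) ^ 2 * ((t ^ 2 - 1) * t) ∧
      ∀ S : Finset V,
        4 * (univ.filter (fun p : V × V => p.1 ∈ S ∧ p.2 ∉ S ∧ G.Adj p.1 p.2)).card ≤
          (univ.filter (fun p : V × V => G.Adj p.1 p.2)).card + t ^ 5 := by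
  obtain ⟨Q, H, T, hQ, hT, hQH⟩ := exists_params
  set R := 4 + 4 * (2 * Q ^ H) ^ 2 with hR
  refine ⟨R, fun B => ?_⟩
  set D := R * (4 * R ^ 3 * (2 * Q ^ H) ^ 2 + 1) ^ R with hD
  set l := 2 * (B + D + T + 1) + 1 with hl
  have hodd : Odd l := ⟨B + D + T + 1, rfl⟩
  have hl2 : l < 2 ^ l := Nat.lt_two_pow_self
  obtain ⟨K, iF, iFt, iC, hK⟩ := exists_K l (by omega)
  have : Fact (∀ r : K, r ^ 2 ≠ 1 + 1 * r) := ⟨no_root K l hodd hK⟩
  have : Finite (QuadraticAlgebra K 1 1) := quad_finite K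
  have : Fintype (QuadraticAlgebra K 1 1) := Fintype.ofFinite _
  have : CharP (QuadraticAlgebra K 1 1) 2 := quad_char K
  have hF : Fintype.card (QuadraticAlgebra K 1 1) = (2 ^ l) ^ 2 := by
    rw [← Nat.card_eq_fintype_card, quad_card, hK]
  obtain ⟨tr, htr⟩ := exists_tr (K := K) l hK
  have hTl : T < l := by omega
  have hcard : ∀ a : Fin T → K, Nat.card (WW l T tr a) = 2 ^ l := by
    intro a
    have := card_sq (tau tr) (tau_nt l tr htr) (WW l T tr a)
      (WW_self_dual l T hodd hTl hK tr htr a)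
    rw [hF] at this
    exact Nat.pow_left_injective (by norm_num : (2 : ℕ) ≠ 0) this
  obtain ⟨a, ha⟩ := exists_clique_free (F := QuadraticAlgebra K 1 1)
    (fun a : Fin T → K => WW l T tr a) (fun a => one_mem_WW l T tr a) Q H R hQ
    (fun a a' haa => lt_of_lt_of_le (WW_inter l T hTl hK tr a a' haa) hQH) le_rfl (by
      rw [← hD, hF, Fintype.card_fun, hK, Fintype.card_fin]
      calc D * ((2 ^ l) ^ 2) ^ (4 * Q + 2 * H) = D * (2 ^ l) ^ (8 * Q + 4 * H) := by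
            rw [← pow_mul]; congr 2; ring
        _ < 2 ^ l * (2 ^ l) ^ (8 * Q + 4 * H) := by
            apply Nat.mul_lt_mul_of_pos_right
            · omega
            · positivity
        _ = (2 ^ l) ^ (8 * Q + 4 * H + 1) := by ring
        _ ≤ (2 ^ l) ^ T := Nat.pow_le_pow_right (by positivity) (by omega))
  have h1 := one_mem_WW l T tr a
  refine ⟨2 ^ l, by omega, by omega, (QuadraticAlgebra K 1 1) × (QuadraticAlgebra K 1 1), inferInstance,
    ⟨AdjW (WW l T tr a), ⟨fun _ _ h => AdjW.symm h1 h⟩, ⟨fun _ h => h.1 rfl⟩⟩, ?_, ?_, ?_⟩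
  · intro f hf
    exact ha f hf
  · have := pairs_card (WW l T tr a)
    rw [hF, hcard] at this
    exact this
  · intro S
    have := cut_bound (tau tr) (tau_sq l tr htr) (tau_nt l tr htr) (WW l T tr a)
      (WW_self_dual l T hodd hTl hK tr htr a) h1 S
    rw [hF, hcard] at this
    have h5 := arith_aux (2 ^ l) _ _ (by positivity) this
    convert h5

end MCut
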