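import Pool.Agent.helper77.MC.Spec

/-!
# Row GD of project MC
-/

set_option autoImplicit false

namespace Pool.Agent.helper77.MC

open Finset Numbering

theorem GD (h1 : FA_stmt) : GD_stmt := by
  intro β _ _ y c m w g hy hc hw hg f
  obtain ⟨hF, hA, -⟩ := h1 β y c (c + 1) m m hy hc
  by_cases hex : ∃ J ∈ fam y c m, f ∈ prefixed J
  · obtain ⟨J, hJ, hfJ⟩ := hex
    have huniq : ∀ J' ∈ fam y c m, f ∈ prefixed J' → J' = J := by
      intro J' hJ' hfJ'
      rw [mem_prefixed] at hfJ hfJ'
      rcases Nat.le_total #J' #J with h | h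
      · exact hA J' hJ' J hJ (hfJ'.subset_of_card_le_card hfJ h)
      · exact (hA J hJ J' hJ' (hfJ.subset_of_card_le_card hfJ' h)).symm
    rw [Finset.sum_eq_single J]
    · rw [if_pos hfJ]
      exact hg _ (hF J hJ).2.1
    · intro J' hJ' hne
      exact if_neg (fun h => hne (huniq J' hJ' h))
    · intro h
      exact absurd hJ h
  · have h0 : ∑ J ∈ fam y c m, (if f ∈ prefixed J then g #J else 0) = 0 := by
      apply Finset.sum_eq_zero
      intro J hJ
      exact if_neg (fun h => hex ⟨J, hJ, h⟩)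
    rw [h0]
    exact hw

end Pool.Agent.helper77.MC
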