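import Pool.Agent.helper99.MC.A

/-!
# MC module B: consequences of the key lemma
-/

set_option autoImplicit false
open Finset Classical

namespace MCut

section B
variable {F : Type*} [Field F] [Fintype F] [CharP F 2]

omit [CharP F 2] in
/-- The finset of the elements of a subgroup. -/
theorem B_card_sub (U : AddSubgroup F) : (univ.filter (fun x : F => x ∈ U)).card = Nat.card U := by
  rw [Nat.card_eq_fintype_card, Fintype.card_subtype]

/-- the union over two elements of `U` of the sets of `key_count` -/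
theorem B_pair_count (U : AddSubgroup F) (A B C : F × F) (hAB : A.1 ≠ B.1) (hAC : A.1 ≠ C.1)
    (hBC : B.1 ≠ C.1) :
    (univ.filter (fun P : F × F => P.1 ≠ A.1 ∧ P.1 ≠ B.1 ∧ P.1 ≠ C.1 ∧
      gg P A + gg P B ∈ U ∧ gg P A + gg P C ∈ U)).card ≤ (Nat.card U) ^ 2 * 4 := by
  classical
  set s : Finset (F × F) := (univ.filter (fun x : F => x ∈ U)) ×ˢ (univ.filter (fun x : F => x ∈ U))
  have hs : s.card = (Nat.card U) ^ 2 := by
    rw [Finset.card_product, B_card_sub, sq]
  rw [← hs]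
  refine le_trans (Finset.card_le_card ?_)
    (Finset.card_biUnion_le_card_mul s (fun p => univ.filter (fun P : F × F => P.1 ≠ A.1 ∧
      P.1 ≠ B.1 ∧ P.1 ≠ C.1 ∧ gg P A + gg P B = p.1 ∧ gg P A + gg P C = p.2)) 4
      fun p _ => key_count A B C hAB hAC hBC p.1 p.2)
  intro P hP
  simp only [Finset.mem_filter, Finset.mem_univ, true_and] at hP
  obtain ⟨h1, h2, h3, h4, h5⟩ := hP
  simp only [Finset.mem_biUnion, Finset.mem_filter, Finset.mem_univ, true_and, s,
    Finset.mem_product]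
  exact ⟨(gg P A + gg P B, gg P A + gg P C), ⟨h4, h5⟩, h1, h2, h3, rfl, rfl⟩

/-- points `P` for which three old points have their invariants in one coset of `U` -/
theorem triple_count (O : Finset (F × F)) (hO : Set.InjOn Prod.fst (O : Set (F × F)))
    (U : AddSubgroup F) :
    (univ.filter (fun P : F × F => (∀ X ∈ O, P.1 ≠ X.1) ∧ ∃ A ∈ O, ∃ B ∈ O, ∃ C ∈ O,
      A ≠ B ∧ A ≠ C ∧ B ≠ C ∧ gg P A + gg P B ∈ U ∧ gg P A + gg P C ∈ U)).card
      ≤ O.card ^ 3 * (Nat.card U) ^ 2 * 4 := by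
  classical
  set s : Finset ((F × F) × (F × F) × (F × F)) := O ×ˢ (O ×ˢ O)
  have hs : s.card = O.card ^ 3 := by
    rw [Finset.card_product, Finset.card_product]; ring
  rw [← hs, mul_assoc]
  refine le_trans (Finset.card_le_card ?_)
    (Finset.card_biUnion_le_card_mul s (fun t => if t.1.1 ≠ t.2.1.1 ∧ t.1.1 ≠ t.2.2.1 ∧
      t.2.1.1 ≠ t.2.2.1 then univ.filter (fun P : F × F => P.1 ≠ t.1.1 ∧
      P.1 ≠ t.2.1.1 ∧ P.1 ≠ t.2.2.1 ∧ gg P t.1 + gg P t.2.1 ∈ U ∧ gg P t.1 + gg P t.2.2 ∈ U)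
      else ∅) _ fun t _ => ?_)
  · intro P hP
    simp only [Finset.mem_filter, Finset.mem_univ, true_and] at hP
    obtain ⟨h1, A, hA, B, hB, C, hC, hAB, hAC, hBC, h4, h5⟩ := hP
    rw [Finset.mem_biUnion]
    refine ⟨(A, B, C), by simp [s, hA, hB, hC], ?_⟩
    have e1 : A.1 ≠ B.1 := fun h => hAB (hO hA hB h)
    have e2 : A.1 ≠ C.1 := fun h => hAC (hO hA hC h)
    have e3 : B.1 ≠ C.1 := fun h => hBC (hO hB hC h)
    rw [if_pos ⟨e1, e2, e3⟩, Finset.mem_filter]
    exact ⟨Finset.mem_univ _, h1 A hA, h1 B hB, h1 C hC, h4, h5⟩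
  · split_ifs with h
    · exact B_pair_count U t.1 t.2.1 t.2.2 h.1 h.2.1 h.2.2
    · simp

/-- small steps: with `2 * Q` old points, few new points enlarge the group by a factor `< Q`
(pigeonhole: the group `U'` has fewer than `Q` cosets of `U`, so three invariants share one). -/
theorem small_step (O : Finset (F × F)) (hO : Set.InjOn Prod.fst (O : Set (F × F)))
    (U : AddSubgroup F) (Q : ℕ) (hQ : 2 * Q ≤ O.card) :
    (univ.filter (fun P : F × F => (∀ X ∈ O, P.1 ≠ X.1) ∧
      Nat.card (U ⊔ AddSubgroup.closure {x | ∃ X ∈ O, x = gg P X} : AddSubgroup F)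
        < Q * Nat.card U)).card
      ≤ O.card ^ 3 * (Nat.card U) ^ 2 * 4 := by
  classical
  refine le_trans (Finset.card_le_card ?_) (triple_count O hO U)
  intro P hP
  simp only [Finset.mem_filter, Finset.mem_univ, true_and] at hP ⊢
  obtain ⟨h1, h2⟩ := hP
  refine ⟨h1, ?_⟩
  set U' : AddSubgroup F := U ⊔ AddSubgroup.closure {x | ∃ X ∈ O, x = gg P X} with hU'
  have hle : U ≤ U' := le_sup_left
  have hmem : ∀ X ∈ O, gg P X ∈ U' := fun X hX =>
    AddSubgroup.mem_sup_right (AddSubgroup.subset_closure ⟨X, hX, rfl⟩)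
  set H : AddSubgroup U' := U.addSubgroupOf U'
  have hH : Nat.card H = Nat.card U :=
    Nat.card_congr (AddSubgroup.addSubgroupOfEquivOfLe hle).toEquiv
  have hidx : Nat.card (U' ⧸ H) < Q := by
    have h3 := AddSubgroup.card_mul_index H
    rw [hH] at h3
    have h4 : 0 < Nat.card U := Nat.card_pos
    have h5 : Nat.card U * H.index < Nat.card U * Q := by rw [h3, mul_comm (Nat.card U) Q]; exact h2
    exact Nat.lt_of_mul_lt_mul_left h5
  have : Fintype (U' ⧸ H) := Fintype.ofFinite _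
  let f : O → U' ⧸ H := fun X => QuotientAddGroup.mk ⟨gg P X.1, hmem X.1 X.2⟩
  have hcard : (univ : Finset (U' ⧸ H)).card * 2 < (univ : Finset O).card := by
    rw [Finset.card_univ, ← Nat.card_eq_fintype_card, Finset.card_univ, Fintype.card_coe]
    omega
  obtain ⟨y, _, hy⟩ := Finset.exists_lt_card_fiber_of_mul_lt_card_of_maps_to
    (s := (univ : Finset O)) (t := (univ : Finset (U' ⧸ H))) (f := f) (n := 2)
    (fun a _ => Finset.mem_univ _) hcard
  obtain ⟨A, hA, B, hB, C, hC, hAB, hAC, hBC⟩ := Finset.two_lt_card.1 hy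
  simp only [Finset.mem_filter, Finset.mem_univ, true_and] at hA hB hC
  have key : ∀ X Y : O, f X = y → f Y = y → gg P X.1 + gg P Y.1 ∈ U := by
    intro X Y hX hY
    have h6 : f X = f Y := hX.trans hY.symm
    have h7 := QuotientAddGroup.eq.1 h6
    rw [AddSubgroup.mem_addSubgroupOf] at h7
    have h8 : (-gg P X.1 + gg P Y.1) ∈ U := h7
    rwa [CharTwo.neg_eq] at h8
  exact ⟨A.1, A.2, B.1, B.2, C.1, C.2, fun h => hAB (Subtype.ext h), fun h => hAC (Subtype.ext h),
    fun h => hBC (Subtype.ext h), key A B hA hB, key A C hA hC⟩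

/-- a set of points with distinct first coordinates all of whose invariants lie in `U` is small -/
theorem clique_in_group (O : Finset (F × F)) (U : AddSubgroup F)
    (hO : ∀ P ∈ O, ∀ X ∈ O, P ≠ X → P.1 ≠ X.1 ∧ gg P X ∈ U) :
    O.card ≤ 3 + 4 * (Nat.card U) ^ 2 := by
  classical
  by_cases h3 : O.card ≤ 2
  · omega
  obtain ⟨A, hA, B, hB, C, hC, hAB, hAC, hBC⟩ := Finset.two_lt_card.1 (not_le.1 h3)
  have e1 := (hO A hA B hB hAB).1
  have e2 := (hO A hA C hC hAC).1
  have e3 := (hO B hB C hC hBC).1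
  have hsub : O ⊆ {A, B, C} ∪ univ.filter (fun P : F × F => P.1 ≠ A.1 ∧ P.1 ≠ B.1 ∧ P.1 ≠ C.1 ∧
      gg P A + gg P B ∈ U ∧ gg P A + gg P C ∈ U) := by
    intro P hP
    rw [Finset.mem_union]
    by_cases hPA : P = A
    · left; simp [hPA]
    by_cases hPB : P = B
    · left; simp [hPB]
    by_cases hPC : P = C
    · left; simp [hPC]
    right
    have f1 := hO P hP A hA hPA
    have f2 := hO P hP B hB hPB
    have f3 := hO P hP C hC hPC
    rw [Finset.mem_filter]
    exact ⟨Finset.mem_univ _, f1.1, f2.1, f3.1, U.add_mem f1.2 f2.2, U.add_mem f1.2 f3.2⟩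
  refine (Finset.card_le_card hsub).trans ((Finset.card_union_le _ _).trans ?_)
  have := B_pair_count U A B C e1 e2 e3
  have h4 : ({A, B, C} : Finset (F × F)).card ≤ 3 := Finset.card_le_three
  omega

end B

end MCut
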