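import Mathlib

/-!
# Max-Cut surplus of graphs without large cliques (MP_ddb86a_co): basic definitions

`F` is a finite field of characteristic 2. Points are pairs `(u, b)` of elements of `F`. For an
additive subgroup `W` of `F` two points `P, Q` are adjacent when `P.1 ≠ Q.1` and `gg P Q ∈ W`.
-/

set_option autoImplicit false

open Finset

namespace MCut

section Base
variable {F : Type*} [Field F]

/-- The invariant of two points. -/
def gg (P Q : F × F) : F := (P.2 + Q.2 + Q.1 * (P.1 + Q.1)) / (P.1 + Q.1) ^ 2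

/-- Adjacency relation attached to an additive subgroup `W`. -/
def AdjW (W : AddSubgroup F) (P Q : F × F) : Prop := P.1 ≠ Q.1 ∧ gg P Q ∈ W

/-- The additive group spanned by `1` and by all the invariants of a list of points. -/
def spn : List (F × F) → AddSubgroup F
  | [] => AddSubgroup.closure {1}
  | P :: l => spn l ⊔ AddSubgroup.closure {x | ∃ Q ∈ l, x = gg P Q}

theorem add_ne_zero_of_ne [CharP F 2] {a b : F} (h : a ≠ b) : a + b ≠ 0 := fun h0 =>
  h (CharTwo.add_eq_zero.1 h0)

theorem gg_swap [CharP F 2] (P Q : F × F) (h : P.1 ≠ Q.1) : gg Q P = gg P Q + 1 := by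
  have h2 : (2 : F) = 0 := CharTwo.two_eq_zero
  have hne : P.1 + Q.1 ≠ 0 := add_ne_zero_of_ne h
  have hne' : Q.1 + P.1 ≠ 0 := by rwa [add_comm]
  unfold gg
  field_simp
  linear_combination (-(Q.1 * P.1) - Q.1^2) * h2 * (P.1 + Q.1)^2

theorem AdjW.symm [CharP F 2] {W : AddSubgroup F} (h1 : (1 : F) ∈ W) {P Q : F × F}
    (h : AdjW W P Q) : AdjW W Q P := by
  refine ⟨h.1.symm, ?_⟩
  rw [gg_swap P Q h.1]
  exact W.add_mem h.2 h1

theorem one_mem_spn (l : List (F × F)) : (1 : F) ∈ spn l := by
  induction l with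
  | nil => exact AddSubgroup.subset_closure rfl
  | cons P l ih => exact AddSubgroup.mem_sup_left ih

theorem spn_le_cons (P : F × F) (l : List (F × F)) : spn l ≤ spn (P :: l) := le_sup_left

theorem gg_mem_spn {P Q : F × F} {l : List (F × F)} (hQ : Q ∈ l) : gg P Q ∈ spn (P :: l) :=
  AddSubgroup.mem_sup_right (AddSubgroup.subset_closure ⟨Q, hQ, rfl⟩)

/-- If all the invariants of a list lie in `W` and `1 ∈ W` then the span is contained in `W`. -/
theorem spn_le {W : AddSubgroup F} (h1 : (1 : F) ∈ W) :
    ∀ l : List (F × F), l.Pairwise (AdjW W) → spn l ≤ W := by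
  intro l
  induction l with
  | nil =>
      intro _
      rw [spn, AddSubgroup.closure_le]
      simpa using h1
  | cons P l ih =>
      intro hl
      rw [List.pairwise_cons] at hl
      rw [spn]
      refine sup_le (ih hl.2) ?_
      rw [AddSubgroup.closure_le]
      rintro x ⟨Q, hQ, rfl⟩
      exact (hl.1 Q hQ).2

end Base

end MCut
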