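import Pool.Agent.helper79.MC.B

/-!
# Counting prefixes of cliques
-/

set_option autoImplicit false
open Finset Classical
set_option linter.unusedSectionVars false

namespace MCut

section C
variable {F : Type*} [Field F] [Fintype F] [CharP F 2]

/-- Distinct first coordinates. -/
def DF (l : List (F × F)) : Prop := l.Pairwise (fun P Q => P.1 ≠ Q.1)

/-- All lists of length `n`. -/
noncomputable def lists (F : Type*) [Field F] [Fintype F] : ℕ → Finset (List (F × F))
  | 0 => {[]}
  | n + 1 => ((univ : Finset (F × F)) ×ˢ lists F n).image (fun p => p.1 :: p.2)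

theorem mem_lists : ∀ (n : ℕ) (l : List (F × F)), l ∈ lists F n ↔ l.length = n := by
  intro n
  induction n with
  | zero => intro l; simp [lists]
  | succ n ih =>
      intro l
      rw [lists, Finset.mem_image]
      constructor
      · rintro ⟨⟨P, l'⟩, h, rfl⟩
        rw [Finset.mem_product] at h
        simp [(ih l').1 h.2]
      · intro h
        cases l with
        | nil => simp at h
        | cons P l' =>
            refine ⟨(P, l'), ?_, rfl⟩
            rw [Finset.mem_product]
            exact ⟨mem_univ _, (ih l').2 (by simpa using h)⟩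

theorem card_lists_le (n : ℕ) : (lists F n).card ≤ (Fintype.card F) ^ (2 * n) := by
  induction n with
  | zero => simp [lists]
  | succ n ih =>
      rw [lists]
      refine Finset.card_image_le.trans ?_
      rw [Finset.card_product, Finset.card_univ, Fintype.card_prod]
      calc Fintype.card F * Fintype.card F * (lists F n).card
          ≤ Fintype.card F * Fintype.card F * (Fintype.card F) ^ (2 * n) :=
            Nat.mul_le_mul_left _ ih
        _ = _ := by ring

/-- Lists of length `n` with distinct first coordinates and small span. -/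
noncomputable def fam (F : Type*) [Field F] [Fintype F] (n B : ℕ) : Finset (List (F × F)) :=
  (lists F n).filter (fun l => DF l ∧ Nat.card (spn l) < B)

theorem two_le_card_spn (l : List (F × F)) : 2 ≤ Nat.card (spn l) := by
  have h1 : (1 : F) ∈ spn l := one_mem_spn l
  rw [← Nat.lt_iff_add_one_le, Finite.one_lt_card_iff_nontrivial]
  refine ⟨⟨⟨0, (spn l).zero_mem⟩, ⟨1, h1⟩, ?_⟩⟩
  intro h
  have := congrArg Subtype.val h
  simp at this

theorem fam_two (n : ℕ) : fam F n 2 = ∅ := by
  rw [fam, Finset.filter_eq_empty_iff]
  rintro l _ ⟨_, h⟩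
  have := two_le_card_spn l
  omega

theorem card_spn_mono {U V : AddSubgroup F} (h : U ≤ V) : Nat.card U ≤ Nat.card V :=
  Nat.card_le_card_of_injective (AddSubgroup.inclusion h) (AddSubgroup.inclusion_injective h)

theorem DF.injOn_aux : ∀ l : List (F × F), l.Pairwise (fun P Q => P.1 ≠ Q.1) →
    ∀ P ∈ l, ∀ X ∈ l, P.1 = X.1 → P = X := by
  intro l
  induction l with
  | nil => intro _ P hP; simp at hP
  | cons A l ih =>
      intro h P hP X hX hPX
      rw [List.pairwise_cons] at h
      rcases List.mem_cons.1 hP with h2 | hP'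
      · rcases List.mem_cons.1 hX with h3 | hX'
        · rw [h2, h3]
        · exact absurd (h2 ▸ hPX) (h.1 X hX')
      · rcases List.mem_cons.1 hX with h3 | hX'
        · exact absurd (h3 ▸ hPX).symm (h.1 P hP')
        · exact ih h.2 P hP' X hX' hPX

theorem DF.injOn {l : List (F × F)} (h : DF l) :
    Set.InjOn Prod.fst ((l.toFinset : Finset (F × F)) : Set (F × F)) := by
  intro P hP X hX hPX
  rw [Finset.mem_coe, List.mem_toFinset] at hP hX
  exact DF.injOn_aux l h P hP X hX hPX

theorem DF.card_toFinset {l : List (F × F)} (h : DF l) : l.toFinset.card = l.length := by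
  apply List.toFinset_card_of_nodup
  exact h.imp (fun h h' => h (congrArg Prod.fst h'))

theorem fam_step (n Q h : ℕ) (hn : 2 * Q ≤ n) :
    (fam F (n + 1) (2 * Q ^ (h + 1))).card ≤
      (fam F n (2 * Q ^ (h + 1))).card * (n ^ 3 * (2 * Q ^ (h + 1)) ^ 2 * 4)
      + (fam F n (2 * Q ^ h)).card * (Fintype.card F) ^ 2 := by
  set sm : List (F × F) → Finset (F × F) := fun l => univ.filter (fun P : F × F =>
      (∀ X ∈ l.toFinset, P.1 ≠ X.1) ∧
      Nat.card (spn l ⊔ AddSubgroup.closure {x | ∃ X ∈ l.toFinset, x = gg P X} : AddSubgroup F)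
        < Q * Nat.card (spn l)) with hsm
  have hsub : fam F (n + 1) (2 * Q ^ (h + 1)) ⊆
      (fam F n (2 * Q ^ (h + 1))).biUnion (fun l => (sm l).image (fun P => P :: l)) ∪
      ((univ : Finset (F × F)) ×ˢ fam F n (2 * Q ^ h)).image (fun p => p.1 :: p.2) := by
    intro l hl
    rw [fam, Finset.mem_filter, mem_lists] at hl
    obtain ⟨hlen, hDF, hcard⟩ := hl
    cases l with
    | nil => simp at hlen
    | cons P l =>
        have hlen' : l.length = n := by simpa using hlen
        have hDF' : DF l := (List.pairwise_cons.1 hDF).2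
        have hPl : ∀ X ∈ l, P.1 ≠ X.1 := (List.pairwise_cons.1 hDF).1
        have hmono : Nat.card (spn l) ≤ Nat.card (spn (P :: l)) := card_spn_mono (spn_le_cons P l)
        by_cases hs : Nat.card (spn (P :: l)) < Q * Nat.card (spn l)
        · apply Finset.mem_union_left
          rw [Finset.mem_biUnion]
          refine ⟨l, ?_, ?_⟩
          · rw [fam, Finset.mem_filter, mem_lists]
            exact ⟨hlen', hDF', lt_of_le_of_lt hmono hcard⟩
          · rw [Finset.mem_image]
            refine ⟨P, ?_, rfl⟩
            rw [hsm]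
            simp only [Finset.mem_filter, Finset.mem_univ, true_and, List.mem_toFinset]
            exact ⟨hPl, hs⟩
        · apply Finset.mem_union_right
          rw [Finset.mem_image]
          refine ⟨(P, l), ?_, rfl⟩
          rw [Finset.mem_product]
          refine ⟨mem_univ _, ?_⟩
          rw [fam, Finset.mem_filter, mem_lists]
          refine ⟨hlen', hDF', ?_⟩
          by_contra hc
          push Not at hs hc
          have : Q * (2 * Q ^ h) ≤ Nat.card (spn (P :: l)) :=
            (Nat.mul_le_mul_left Q hc).trans hs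
          have e : Q * (2 * Q ^ h) = 2 * Q ^ (h + 1) := by ring
          omega
  refine (Finset.card_le_card hsub).trans ((Finset.card_union_le _ _).trans ?_)
  apply Nat.add_le_add
  · refine Finset.card_biUnion_le.trans ?_
    rw [← smul_eq_mul]
    apply Finset.sum_le_card_nsmul
    intro l hl
    rw [fam, Finset.mem_filter, mem_lists] at hl
    obtain ⟨hlen, hDF, hcard⟩ := hl
    refine Finset.card_image_le.trans ?_
    have hc : l.toFinset.card = n := by rw [hDF.card_toFinset, hlen]
    have := small_step l.toFinset hDF.injOn (spn l) Q (by rw [hc]; exact hn)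
    refine this.trans ?_
    rw [hc]
    gcongr
  · refine Finset.card_image_le.trans ?_
    rw [Finset.card_product, Finset.card_univ, Fintype.card_prod]
    apply le_of_eq
    ring

theorem fam_bound (Q H R : ℕ) (hQ : 2 ≤ Q) :
    ∀ n ≤ R, ∀ h, h + 1 ≤ H → (fam F n (2 * Q ^ (h + 1))).card ≤
      (4 * R ^ 3 * (2 * Q ^ H) ^ 2 + 1) ^ n * (Fintype.card F) ^ (4 * Q + 2 * h) := by
  set C := 4 * R ^ 3 * (2 * Q ^ H) ^ 2 + 1 with hC
  have hq : 1 ≤ Fintype.card F := Fintype.card_pos
  intro n
  induction n with
  | zero =>
      intro _ h _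
      refine (Finset.card_filter_le _ _).trans ((card_lists_le 0).trans ?_)
      simp only [mul_zero, pow_zero, one_mul]
      exact Nat.one_le_pow _ _ hq
  | succ n ih =>
      intro hn h hh
      by_cases hn2 : n + 1 ≤ 2 * Q
      · refine (Finset.card_filter_le _ _).trans ((card_lists_le (n + 1)).trans ?_)
        calc (Fintype.card F) ^ (2 * (n + 1)) ≤ (Fintype.card F) ^ (4 * Q + 2 * h) :=
              Nat.pow_le_pow_right hq (by omega)
          _ = 1 * (Fintype.card F) ^ (4 * Q + 2 * h) := by ring
          _ ≤ _ := Nat.mul_le_mul_right _ (Nat.one_le_pow _ _ (by omega))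
      · refine (fam_step n Q h (by omega)).trans ?_
        have h1 := ih (by omega) h hh
        have h2 : n ^ 3 * (2 * Q ^ (h + 1)) ^ 2 * 4 ≤ 4 * R ^ 3 * (2 * Q ^ H) ^ 2 := by
          have : Q ^ (h + 1) ≤ Q ^ H := Nat.pow_le_pow_right (by omega) hh
          have hnR : n ≤ R := by omega
          calc n ^ 3 * (2 * Q ^ (h + 1)) ^ 2 * 4 ≤ R ^ 3 * (2 * Q ^ H) ^ 2 * 4 := by gcongr
            _ = _ := by ring
        have h3 : (fam F n (2 * Q ^ h)).card * (Fintype.card F) ^ 2 ≤
            C ^ n * (Fintype.card F) ^ (4 * Q + 2 * h) := by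
          cases h with
          | zero => simp [fam_two]
          | succ h =>
              have := ih (by omega) h (by omega)
              calc (fam F n (2 * Q ^ (h + 1))).card * (Fintype.card F) ^ 2
                  ≤ (C ^ n * (Fintype.card F) ^ (4 * Q + 2 * h)) * (Fintype.card F) ^ 2 :=
                    Nat.mul_le_mul_right _ this
                _ = _ := by ring
        calc _ ≤ (C ^ n * (Fintype.card F) ^ (4 * Q + 2 * h)) * (4 * R ^ 3 * (2 * Q ^ H) ^ 2) +
              C ^ n * (Fintype.card F) ^ (4 * Q + 2 * h) := Nat.add_le_add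
                (Nat.mul_le_mul h1 h2) h3
          _ = C ^ (n + 1) * (Fintype.card F) ^ (4 * Q + 2 * h) := by rw [pow_succ, hC]; ring

/-- A list with large span has a suffix at which the span becomes large. -/
theorem exists_prefix (B : ℕ) (hB : 2 < B) (r : F × F → F × F → Prop) :
    ∀ l : List (F × F), l.Pairwise r → B ≤ Nat.card (spn l) →
      ∃ P l', (P :: l').Pairwise r ∧ l'.length < l.length ∧ Nat.card (spn l') < B ∧
        B ≤ Nat.card (spn (P :: l')) := by
  intro l
  induction l with
  | nil =>
      intro _ h
      exfalso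
      have h2 : Nat.card (spn ([] : List (F × F))) ≤ 2 := by
        have hsub : ((spn ([] : List (F × F)) : AddSubgroup F) : Set F) ⊆ {0, 1} := by
          have : spn ([] : List (F × F)) ≤
              { carrier := ({0, 1} : Set F)
                add_mem' := by
                  rintro a b (rfl | rfl) (rfl | rfl)
                  · simp
                  · simp
                  · simp
                  · left; exact CharTwo.add_self_eq_zero _
                zero_mem' := by simp
                neg_mem' := by
                  rintro a (rfl | rfl)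
                  · simp
                  · right; exact CharTwo.neg_eq _ } := by
            rw [spn, AddSubgroup.closure_le]
            rintro x rfl
            exact Or.inr rfl
          exact this
        have h3 := Nat.card_mono (Set.toFinite ({0, 1} : Set F)) hsub
        refine h3.trans ?_
        rw [Nat.card_eq_card_toFinset]
        refine (Finset.card_le_card (t := {0, 1}) ?_).trans (Finset.card_le_two)
        intro x hx
        simpa using hx
      omega
  | cons P l ih =>
      intro hl hB'
      by_cases h : Nat.card (spn l) < B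
      · exact ⟨P, l, hl, by simp, h, hB'⟩
      · obtain ⟨P', l', h1, h2, h3, h4⟩ := ih (List.pairwise_cons.1 hl).2 (not_lt.1 h)
        exact ⟨P', l', h1, by simp only [List.length_cons]; omega, h3, h4⟩

theorem exists_clique_free {I : Type*} [Fintype I] (W : I → AddSubgroup F)
    (h1 : ∀ i, (1 : F) ∈ W i) (Q H R : ℕ) (hQ : 2 ≤ Q)
    (hW : ∀ i j, i ≠ j → Nat.card (W i ⊓ W j : AddSubgroup F) < 2 * Q ^ H)
    (hR : 4 + 4 * (2 * Q ^ H) ^ 2 ≤ R)
    (hI : R * (4 * R ^ 3 * (2 * Q ^ H) ^ 2 + 1) ^ R * (Fintype.card F) ^ (4 * Q + 2 * H)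
      < Fintype.card I) :
    ∃ i, ∀ f : Fin R → F × F, ¬ (∀ a b, a ≠ b → AdjW (W i) (f a) (f b)) := by
  set C := 4 * R ^ 3 * (2 * Q ^ H) ^ 2 + 1 with hC
  have hq : 1 ≤ Fintype.card F := Fintype.card_pos
  by_contra hcon
  push Not at hcon
  -- the number of indices is at least two, hence `H ≠ 0`
  have hIcard : 2 ≤ Fintype.card I := by
    have : 1 ≤ R * C ^ R * (Fintype.card F) ^ (4 * Q + 2 * H) := by
      have hR1 : 1 ≤ R := by omega
      have : 1 ≤ C ^ R := Nat.one_le_pow _ _ (by omega)
      have h3 : 1 ≤ (Fintype.card F) ^ (4 * Q + 2 * H) := Nat.one_le_pow _ _ hq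
      exact Nat.mul_pos (Nat.mul_pos hR1 this) h3
    omega
  have hH : H ≠ 0 := by
    rintro rfl
    obtain ⟨i, j, hij⟩ := Fintype.one_lt_card_iff.1 (by omega : 1 < Fintype.card I)
    have h2 := hW i j hij
    have h3 : 2 ≤ Nat.card (W i ⊓ W j : AddSubgroup F) := by
      rw [← Nat.lt_iff_add_one_le, Finite.one_lt_card_iff_nontrivial]
      refine ⟨⟨⟨0, (W i ⊓ W j).zero_mem⟩, ⟨1, ⟨h1 i, h1 j⟩⟩, ?_⟩⟩
      intro h
      have := congrArg Subtype.val h
      simp at this
    rw [pow_zero, mul_one] at h2
    omega
  obtain ⟨H', rfl⟩ : ∃ H', H = H' + 1 := ⟨H - 1, by omega⟩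
  set B := 2 * Q ^ (H' + 1) with hB
  have hB2 : 2 < B := by
    have : Q ^ 1 ≤ Q ^ (H' + 1) := Nat.pow_le_pow_right (by omega) (by omega)
    rw [pow_one] at this
    omega
  -- choose prefixes
  have key : ∀ i, ∃ p : (F × F) × List (F × F), (p.1 :: p.2).Pairwise (AdjW (W i)) ∧
      p.2.length < R ∧ Nat.card (spn p.2) < B ∧ B ≤ Nat.card (spn (p.1 :: p.2)) := by
    intro i
    obtain ⟨f, hf⟩ := hcon i
    have hpw : (List.ofFn f).Pairwise (AdjW (W i)) := by
      rw [List.pairwise_ofFn]
      intro a b hab
      exact hf a b (ne_of_lt hab)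
    have hbig : B ≤ Nat.card (spn (List.ofFn f)) := by
      by_contra hlt
      push Not at hlt
      have hinj : Function.Injective f := by
        intro a b hab
        by_contra hne
        exact (hf a b hne).1 (congrArg Prod.fst hab)
      have hmem : ∀ l : List (F × F), l.Pairwise (AdjW (W i)) → l.Pairwise (fun P X =>
          gg P X ∈ spn l) := by
        intro l
        induction l with
        | nil => intro _; exact List.Pairwise.nil
        | cons P l ih =>
            intro hl
            rw [List.pairwise_cons] at hl ⊢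
            refine ⟨fun X hX => gg_mem_spn hX, ?_⟩
            exact (ih hl.2).imp (fun h => spn_le_cons P l h)
      have hmem' := hmem _ hpw
      rw [List.pairwise_ofFn] at hmem'
      have hcl := clique_in_group (univ.image f) (spn (List.ofFn f)) (by
        intro P hP X hX hne
        rw [Finset.mem_image] at hP hX
        obtain ⟨a, _, rfl⟩ := hP
        obtain ⟨b, _, rfl⟩ := hX
        have hab : a ≠ b := fun h => hne (congrArg f h)
        refine ⟨(hf a b hab).1, ?_⟩
        rcases lt_or_gt_of_ne hab with h | h
        · exact hmem' h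
        · have h3 := hmem' h
          rw [gg_swap (f b) (f a) (hf b a hab.symm).1]
          exact (spn (List.ofFn f)).add_mem h3 (one_mem_spn _))
      rw [Finset.card_image_of_injective _ hinj, Finset.card_univ, Fintype.card_fin] at hcl
      have : Nat.card (spn (List.ofFn f)) ^ 2 ≤ B ^ 2 := Nat.pow_le_pow_left hlt.le 2
      omega
    obtain ⟨P, l', h1', h2', h3', h4'⟩ := exists_prefix B hB2 (AdjW (W i)) _ hpw hbig
    refine ⟨(P, l'), h1', ?_, h3', h4'⟩
    simpa using h2'
  choose p hp1 hp2 hp3 hp4 using key
  have hinj : Function.Injective p := by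
    intro i j hij
    by_contra hne
    have h2 := hW i j hne
    have h3 : spn ((p i).1 :: (p i).2) ≤ W i ⊓ W j := by
      refine le_inf (spn_le (h1 i) _ (hp1 i)) ?_
      rw [hij]
      exact spn_le (h1 j) _ (hp1 j)
    have h4 := card_spn_mono h3
    have h5 := hp4 i
    omega
  set T : Finset ((F × F) × List (F × F)) :=
    (range R).biUnion (fun n => univ ×ˢ fam F n (2 * Q ^ (H' + 1))) with hT
  have hmaps : ∀ i ∈ (univ : Finset I), p i ∈ T := by
    intro i _
    rw [hT, Finset.mem_biUnion]
    refine ⟨(p i).2.length, Finset.mem_range.2 (hp2 i), ?_⟩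
    rw [Finset.mem_product]
    refine ⟨mem_univ _, ?_⟩
    rw [fam, Finset.mem_filter, mem_lists]
    refine ⟨rfl, ?_, hp3 i⟩
    exact (List.pairwise_cons.1 (hp1 i)).2.imp (fun h => h.1)
  have hcard := Finset.card_le_card_of_injOn p hmaps hinj.injOn
  rw [Finset.card_univ] at hcard
  have hTcard : T.card ≤ R * (C ^ R * (Fintype.card F) ^ (4 * Q + 2 * (H' + 1))) := by
    rw [hT]
    refine Finset.card_biUnion_le.trans ?_
    calc ∑ n ∈ range R, (univ ×ˢ fam F n (2 * Q ^ (H' + 1))).card
        ≤ ∑ n ∈ range R, C ^ R * (Fintype.card F) ^ (4 * Q + 2 * (H' + 1)) := by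
          apply Finset.sum_le_sum
          intro n hn
          rw [Finset.mem_range] at hn
          rw [Finset.card_product, Finset.card_univ, Fintype.card_prod]
          have h3 := fam_bound (F := F) Q (H' + 1) R hQ n hn.le H' le_rfl
          have h4 : C ^ n ≤ C ^ R := Nat.pow_le_pow_right (by omega) hn.le
          calc Fintype.card F * Fintype.card F * (fam F n (2 * Q ^ (H' + 1))).card
              ≤ Fintype.card F * Fintype.card F *
                (C ^ n * (Fintype.card F) ^ (4 * Q + 2 * H')) := Nat.mul_le_mul_left _ h3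
            _ ≤ Fintype.card F * Fintype.card F *
                (C ^ R * (Fintype.card F) ^ (4 * Q + 2 * H')) := by gcongr
            _ = _ := by ring
      _ = _ := by rw [Finset.sum_const, Finset.card_range, smul_eq_mul]
  have : R * (C ^ R * (Fintype.card F) ^ (4 * Q + 2 * (H' + 1))) =
      R * C ^ R * (Fintype.card F) ^ (4 * Q + 2 * (H' + 1)) := by ring
  omega

end C

end MCut
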