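import Pool.Agent.helper79.MC.J

/-!
# Clique-free graphs with small surplus for every number of edges
-/

set_option autoImplicit false
open Finset Classical

namespace MCut

/-- There is a finite graph without a copy of `K_R`, with `m` edges, all of whose cuts have at most
`m / 2 + s` edges. -/
def Good (R m : ℕ) (s : ℝ) : Prop :=
  ∃ (V : Type) (_ : Fintype V) (G : SimpleGraph V),
    (∀ f : Fin R → V, ¬ ∀ a b, a ≠ b → G.Adj (f a) (f b)) ∧
    (univ.filter (fun p : V × V => G.Adj p.1 p.2)).card = 2 * m ∧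
    ∀ S : Finset V, ((univ.filter (fun p : V × V => p.1 ∈ S ∧ p.2 ∉ S ∧ G.Adj p.1 p.2)).card : ℝ) ≤
      m / 2 + s

theorem Good.mono {R m : ℕ} {s s' : ℝ} (h : Good R m s) (hs : s ≤ s') : Good R m s' := by
  obtain ⟨V, iV, G, h1, h2, h3⟩ := h
  exact ⟨V, iV, G, h1, h2, fun S => (h3 S).trans (by linarith)⟩

theorem Good.add {R m m' : ℕ} {s s' : ℝ} (hR : 1 ≤ R) (h : Good R m s) (h' : Good R m' s') :
    Good R (m + m') (s + s') := by
  obtain ⟨V, iV, G, h1, h2, h3⟩ := h
  obtain ⟨W, iW, H, h1', h2', h3'⟩ := h'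
  refine ⟨V ⊕ W, inferInstance, G ⊕g H, ?_, ?_, ?_⟩
  · intro f hf
    have hside : ∀ a : Fin R, (∃ v, f a = Sum.inl v) ∨ (∃ w, f a = Sum.inr w) := by
      intro a
      rcases f a with v | w
      · exact Or.inl ⟨v, rfl⟩
      · exact Or.inr ⟨w, rfl⟩
    rcases hside ⟨0, hR⟩ with ⟨v0, hv0⟩ | ⟨w0, hw0⟩
    · have hall : ∀ a, ∃ v, f a = Sum.inl v := by
        intro a
        by_cases ha : a = ⟨0, hR⟩
        · exact ⟨v0, ha ▸ hv0⟩
        · rcases hside a with h | ⟨w, hw⟩
          · exact h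
          · have := hf _ _ ha
            rw [hw, hv0] at this
            simp at this
      choose g hg using hall
      refine h1 g fun a b hab => ?_
      have := hf a b hab
      rw [hg, hg] at this
      simpa using this
    · have hall : ∀ a, ∃ w, f a = Sum.inr w := by
        intro a
        by_cases ha : a = ⟨0, hR⟩
        · exact ⟨w0, ha ▸ hw0⟩
        · rcases hside a with ⟨v, hv⟩ | h
          · have := hf _ _ ha
            rw [hv, hw0] at this
            simp at this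
          · exact h
      choose g hg using hall
      refine h1' g fun a b hab => ?_
      have := hf a b hab
      rw [hg, hg] at this
      simpa using this
  · rw [Finset.card_filter] at h2 h2' ⊢
    rw [Fintype.sum_prod_type] at h2 h2' ⊢
    rw [Fintype.sum_sum_type]
    simp only [Fintype.sum_sum_type]
    simp only [SimpleGraph.sum_adj]
    simp only [if_false, Finset.sum_const_zero, add_zero, zero_add]
    rw [h2, h2']
    ring
  · intro S
    have e1 := h3 (univ.filter (fun v => Sum.inl v ∈ S))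
    have e2 := h3' (univ.filter (fun w => Sum.inr w ∈ S))
    have key : (univ.filter (fun p : (V ⊕ W) × (V ⊕ W) =>
        p.1 ∈ S ∧ p.2 ∉ S ∧ (G ⊕g H).Adj p.1 p.2)).card =
        (univ.filter (fun p : V × V => p.1 ∈ univ.filter (fun v => Sum.inl v ∈ S) ∧
          p.2 ∉ univ.filter (fun v => Sum.inl v ∈ S) ∧ G.Adj p.1 p.2)).card +
        (univ.filter (fun p : W × W => p.1 ∈ univ.filter (fun w => Sum.inr w ∈ S) ∧
          p.2 ∉ univ.filter (fun w => Sum.inr w ∈ S) ∧ H.Adj p.1 p.2)).card := by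
      simp only [Finset.card_filter, Fintype.sum_prod_type, Fintype.sum_sum_type,
        Finset.mem_filter, Finset.mem_univ, true_and, SimpleGraph.sum_adj]
      simp
    have hk : ∀ x y z : ℕ, x = y + z → (y : ℝ) ≤ m / 2 + s → (z : ℝ) ≤ m' / 2 + s' →
        (x : ℝ) ≤ ((m + m' : ℕ) : ℝ) / 2 + (s + s') := by
      intro x y z hx hy hz
      rw [hx]
      push_cast
      linarith
    exact hk _ _ _ (by convert key) e1 e2

/-- Every cut has at most `m` edges. -/
theorem trivial_cut {V : Type} [Fintype V] (G : SimpleGraph V) (S : Finset V) :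
    2 * (univ.filter (fun p : V × V => p.1 ∈ S ∧ p.2 ∉ S ∧ G.Adj p.1 p.2)).card ≤
      (univ.filter (fun p : V × V => G.Adj p.1 p.2)).card := by
  have hsw : (univ.filter (fun p : V × V => p.1 ∉ S ∧ p.2 ∈ S ∧ G.Adj p.1 p.2)).card =
      (univ.filter (fun p : V × V => p.1 ∈ S ∧ p.2 ∉ S ∧ G.Adj p.1 p.2)).card := by
    apply Finset.card_bij (fun p _ => (p.2, p.1))
    · intro p hp
      simp only [Finset.mem_filter, Finset.mem_univ, true_and] at hp ⊢
      exact ⟨hp.2.1, hp.1, hp.2.2.symm⟩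
    · intro p _ q _ hpq
      simp only [Prod.mk.injEq] at hpq
      exact Prod.ext hpq.2 hpq.1
    · intro p hp
      simp only [Finset.mem_filter, Finset.mem_univ, true_and] at hp
      refine ⟨(p.2, p.1), ?_, rfl⟩
      simp only [Finset.mem_filter, Finset.mem_univ, true_and]
      exact ⟨hp.2.1, hp.1, hp.2.2.symm⟩
  calc 2 * (univ.filter (fun p : V × V => p.1 ∈ S ∧ p.2 ∉ S ∧ G.Adj p.1 p.2)).card
      = (univ.filter (fun p : V × V => p.1 ∈ S ∧ p.2 ∉ S ∧ G.Adj p.1 p.2)).card +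
        (univ.filter (fun p : V × V => p.1 ∉ S ∧ p.2 ∈ S ∧ G.Adj p.1 p.2)).card := by
          rw [hsw]; ring
    _ = ((univ.filter (fun p : V × V => p.1 ∈ S ∧ p.2 ∉ S ∧ G.Adj p.1 p.2)) ∪
        (univ.filter (fun p : V × V => p.1 ∉ S ∧ p.2 ∈ S ∧ G.Adj p.1 p.2))).card := by
          rw [Finset.card_union_of_disjoint]
          rw [Finset.disjoint_left]
          intro p hp hp'
          simp only [Finset.mem_filter, Finset.mem_univ, true_and] at hp hp'
          exact hp'.1 hp.1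
    _ ≤ _ := by
          apply Finset.card_le_card
          intro p hp
          simp only [Finset.mem_union, Finset.mem_filter, Finset.mem_univ, true_and] at hp ⊢
          rcases hp with hp | hp
          · exact hp.2.2
          · exact hp.2.2

theorem good_one (R : ℕ) (hR : 3 ≤ R) : Good R 1 (1 / 2) := by
  have hc : (univ.filter (fun p : Fin 2 × Fin 2 => (⊤ : SimpleGraph (Fin 2)).Adj p.1 p.2)).card =
      2 * 1 := by
    have : (univ.filter (fun p : Fin 2 × Fin 2 => (⊤ : SimpleGraph (Fin 2)).Adj p.1 p.2)) =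
        {((0 : Fin 2), (1 : Fin 2)), (1, 0)} := by
      ext ⟨a, b⟩
      fin_cases a <;> fin_cases b <;> simp
    rw [this]
    rfl
  refine ⟨Fin 2, inferInstance, ⊤, ?_, by convert hc, ?_⟩
  · intro f hf
    have hinj : Function.Injective f := by
      intro a b hab
      by_contra hne
      exact (hf a b hne) hab
    have := Fintype.card_le_of_injective f hinj
    simp at this
    omega
  · intro S
    have h := trivial_cut (⊤ : SimpleGraph (Fin 2)) S
    have hk : ∀ x : ℕ, 2 * x ≤ 2 * 1 → (x : ℝ) ≤ ((1 : ℕ) : ℝ) / 2 + 1 / 2 := by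
      intro x hx
      have : (x : ℝ) ≤ 1 := by exact_mod_cast (by omega : x ≤ 1)
      norm_num
      linarith
    have hc' : ∀ y : ℕ, y = (univ.filter (fun p : Fin 2 × Fin 2 =>
        (⊤ : SimpleGraph (Fin 2)).Adj p.1 p.2)).card → y = 2 * 1 := by
      intro y hy
      rw [hy]
      convert hc
    refine hk _ ?_
    rw [← hc' _ rfl]
    convert h

theorem good_zero (R : ℕ) (hR : 1 ≤ R) : Good R 0 0 := by
  refine ⟨Fin 0, inferInstance, ⊥, ?_, ?_, ?_⟩
  · intro f _
    exact (f ⟨0, hR⟩).elim0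
  · simp
  · intro S
    simp

/-- The concavity step. -/
theorem step {m a C s : ℝ} (hm : 0 < m) (ha : 0 ≤ a) (ham : a ≤ m) (hC : 0 ≤ C)
    (h : s * m ^ ((2 : ℝ) / 7) ≤ C * (5 / 7) * a) :
    s + C * (m - a) ^ ((5 : ℝ) / 7) ≤ C * m ^ ((5 : ℝ) / 7) := by
  have h1 : (m - a) ^ ((5 : ℝ) / 7) = m ^ ((5 : ℝ) / 7) * (1 + -(a / m)) ^ ((5 : ℝ) / 7) := by
    have hle : a / m ≤ 1 := (div_le_one hm).2 ham
    rw [← Real.mul_rpow hm.le (by linarith)]
    congr 1
    field_simp
    ring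
  have hle : a / m ≤ 1 := (div_le_one hm).2 ham
  have h2 : (1 + -(a / m)) ^ ((5 : ℝ) / 7) ≤ 1 + (5 : ℝ) / 7 * -(a / m) :=
    rpow_one_add_le_one_add_mul_self (by linarith) (by norm_num) (by norm_num)
  set x := m ^ ((5 : ℝ) / 7) with hx
  set y := m ^ ((2 : ℝ) / 7) with hy
  have hx0 : 0 < x := Real.rpow_pos_of_pos hm _
  have hy0 : 0 < y := Real.rpow_pos_of_pos hm _
  have hxy : x * y = m := by
    rw [hx, hy, ← Real.rpow_add hm]
    norm_num
  rw [h1]
  have h3 : C * (x * (1 + -(a / m)) ^ ((5 : ℝ) / 7)) ≤ C * (x * (1 + (5 : ℝ) / 7 * -(a / m))) :=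
    mul_le_mul_of_nonneg_left (mul_le_mul_of_nonneg_left h2 hx0.le) hC
  have h4 : x * (a / m) = a / y := by
    rw [← hxy]
    field_simp
  have h5 : s ≤ C * (5 / 7) * (a / y) := by
    rw [← mul_div_assoc, le_div_iff₀ hy0]
    exact h
  have h6 : C * (x * (1 + (5 : ℝ) / 7 * -(a / m))) = C * x - C * (5 / 7) * (x * (a / m)) := by ring
  rw [h6, h4] at h3
  linarith

theorem all_m (R b0 : ℕ) (hR : 3 ≤ R)
    (hbase : ∀ b : ℕ, b0 ≤ b → ∀ u : ℕ, u = 2 ^ (2 * b) →
      Good R ((2 * u) ^ 4 * ((2 * u) ^ 2 - 1) * u) (((2 * u : ℕ) : ℝ) ^ 5 / 4)) :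
    ∃ C : ℝ, ∀ m : ℕ, Good R m (C * (m : ℝ) ^ ((5 : ℝ) / 7)) := by
  set M0 : ℕ := (2 * 2 ^ (2 * b0)) ^ 7 with hM0
  refine ⟨max 15 M0, ?_⟩
  set C : ℝ := max 15 M0 with hC
  have hC15 : 15 ≤ C := le_max_left _ _
  have hCM : (M0 : ℝ) ≤ C := le_max_right _ _
  intro m
  induction m using Nat.strong_induction_on with
  | _ m ih =>
    rcases Nat.eq_zero_or_pos m with rfl | hmpos
    · have h0 : C * ((0 : ℕ) : ℝ) ^ ((5 : ℝ) / 7) = 0 := by
        rw [Nat.cast_zero, Real.zero_rpow (by norm_num), mul_zero]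
      rw [h0]
      exact good_zero R (by omega)
    · have hm1 : (1 : ℝ) ≤ m := by exact_mod_cast hmpos
      by_cases hsmall : m < M0
      · have hg := (good_one R hR).add (by omega) (ih (m - 1) (by omega))
        rw [show 1 + (m - 1) = m by omega] at hg
        refine hg.mono ?_
        have hcast : ((m - 1 : ℕ) : ℝ) = (m : ℝ) - 1 := by
          rw [Nat.cast_sub hmpos, Nat.cast_one]
        rw [hcast]
        apply step (by linarith) (by norm_num) hm1 (by linarith)
        have h1 : (m : ℝ) ^ ((2 : ℝ) / 7) ≤ (m : ℝ) ^ (1 : ℝ) :=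
          Real.rpow_le_rpow_of_exponent_le hm1 (by norm_num)
        rw [Real.rpow_one] at h1
        have h2 : (m : ℝ) ≤ M0 := by exact_mod_cast hsmall.le
        nlinarith
      · push Not at hsmall
        have hex : ∃ b : ℕ, m < (2 * 2 ^ (2 * b)) ^ 7 := by
          refine ⟨m, ?_⟩
          have h1 : m < 2 ^ m := Nat.lt_two_pow_self
          have h2 : 2 ^ m ≤ 2 * 2 ^ (2 * m) := by
            calc 2 ^ m ≤ 2 ^ (2 * m) := Nat.pow_le_pow_right (by norm_num) (by omega)
              _ ≤ 2 * 2 ^ (2 * m) := by omega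
          calc m < 2 ^ m := h1
            _ ≤ 2 * 2 ^ (2 * m) := h2
            _ ≤ (2 * 2 ^ (2 * m)) ^ 7 := Nat.le_self_pow (by norm_num) _
        set b1 := Nat.find hex with hb1
        have hb1s : m < (2 * 2 ^ (2 * b1)) ^ 7 := Nat.find_spec hex
        have hb1gt : b0 < b1 := by
          by_contra hcon
          push Not at hcon
          have : (2 * 2 ^ (2 * b1)) ^ 7 ≤ (2 * 2 ^ (2 * b0)) ^ 7 := by
            apply Nat.pow_le_pow_left
            apply Nat.mul_le_mul_left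
            exact Nat.pow_le_pow_right (by norm_num) (by omega)
          omega
        obtain ⟨b, hb⟩ : ∃ b, b1 = b + 1 := ⟨b1 - 1, by omega⟩
        have hbge : b0 ≤ b := by omega
        have hbm : (2 * 2 ^ (2 * b)) ^ 7 ≤ m := by
          have := Nat.find_min hex (show b < Nat.find hex by omega)
          omega
        set u : ℕ := 2 ^ (2 * b) with hu
        have hu1 : 1 ≤ u := Nat.one_le_two_pow
        set t : ℕ := 2 * u with ht
        have ht2 : 2 ≤ t := by omega
        have hupper : m < (4 * t) ^ 7 := by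
          have : 2 * 2 ^ (2 * b1) = 4 * t := by
            rw [hb, ht, hu, show 2 * (b + 1) = 2 * b + 2 by ring, pow_add]
            ring
          rw [this] at hb1s
          exact hb1s
        set a : ℕ := t ^ 4 * (t ^ 2 - 1) * u with ha
        have h4t : 4 ≤ t ^ 2 := by nlinarith
        have ha2 : 2 * a = t ^ 5 * (t ^ 2 - 1) := by
          rw [ha, ht]; ring
        have ha_lower : 3 * t ^ 7 ≤ 8 * a := by
          have h1 : 3 * t ^ 2 ≤ 4 * (t ^ 2 - 1) := by omega
          calc 3 * t ^ 7 = t ^ 5 * (3 * t ^ 2) := by ring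
            _ ≤ t ^ 5 * (4 * (t ^ 2 - 1)) := Nat.mul_le_mul_left _ h1
            _ = 4 * (t ^ 5 * (t ^ 2 - 1)) := by ring
            _ = 4 * (2 * a) := by rw [ha2]
            _ = 8 * a := by ring
        have ha_upper : a ≤ m := by
          have h1 : 2 * a ≤ t ^ 7 := by
            rw [ha2]
            calc t ^ 5 * (t ^ 2 - 1) ≤ t ^ 5 * t ^ 2 := Nat.mul_le_mul_left _ (by omega)
              _ = t ^ 7 := by ring
          have : t ^ 7 ≤ m := hbm
          omega
        have hapos : 1 ≤ a := by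
          have : 1 ≤ t ^ 7 := Nat.one_le_pow _ _ (by omega)
          omega
        have hg := (hbase b hbge u hu).add (by omega) (ih (m - a) (by omega))
        rw [← ht, ← ha, show a + (m - a) = m by omega] at hg
        refine hg.mono ?_
        have hcast : ((m - a : ℕ) : ℝ) = (m : ℝ) - a := by
          rw [Nat.cast_sub ha_upper]
        rw [hcast]
        have haR : (a : ℝ) ≤ m := by exact_mod_cast ha_upper
        apply step (by linarith) (by positivity) haR (by linarith)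
        have htR : (2 : ℝ) ≤ t := by exact_mod_cast ht2
        have h1 : (m : ℝ) ^ ((2 : ℝ) / 7) ≤ (4 * (t : ℝ)) ^ 2 := by
          have hm7 : (m : ℝ) ≤ (4 * (t : ℝ)) ^ (7 : ℕ) := by exact_mod_cast hupper.le
          calc (m : ℝ) ^ ((2 : ℝ) / 7) ≤ ((4 * (t : ℝ)) ^ (7 : ℕ)) ^ ((2 : ℝ) / 7) :=
                Real.rpow_le_rpow (by linarith) hm7 (by norm_num)
            _ = (4 * (t : ℝ)) ^ 2 := by
                rw [← Real.rpow_natCast, ← Real.rpow_mul (by linarith)]
                norm_num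
        have h2 : 3 * (t : ℝ) ^ 7 ≤ 8 * a := by exact_mod_cast ha_lower
        have h3 : (t : ℝ) ^ 5 / 4 * (m : ℝ) ^ ((2 : ℝ) / 7) ≤ 4 * (t : ℝ) ^ 7 := by
          calc (t : ℝ) ^ 5 / 4 * (m : ℝ) ^ ((2 : ℝ) / 7) ≤ (t : ℝ) ^ 5 / 4 * (4 * (t : ℝ)) ^ 2 :=
                mul_le_mul_of_nonneg_left h1 (by positivity)
            _ = 4 * (t : ℝ) ^ 7 := by ring
        have h4 : 4 * (t : ℝ) ^ 7 ≤ C * (5 / 7) * a := by
          have h0 : (0 : ℝ) ≤ a := by positivity
          nlinarith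
        exact h3.trans h4

theorem exists_family : ∃ R b0 : ℕ, 3 ≤ R ∧ ∀ b : ℕ, b0 ≤ b → ∀ u : ℕ, u = 2 ^ (2 * b) →
      Good R ((2 * u) ^ 4 * ((2 * u) ^ 2 - 1) * u) (((2 * u : ℕ) : ℝ) ^ 5 / 4) := by
  obtain ⟨Q, H, T, hQ, hT, hQH⟩ := exists_params
  set R := 4 + 4 * (2 * Q ^ H) ^ 2 with hR
  set D := R * (4 * R ^ 3 * (2 * Q ^ H) ^ 2 + 1) ^ R with hD
  refine ⟨R, D + T + 1, by omega, fun b hb u hu => ?_⟩
  set l := 2 * b + 1 with hl
  have hodd : Odd l := ⟨b, rfl⟩
  have hl2 : l < 2 ^ l := Nat.lt_two_pow_self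
  have h2u : 2 * u = 2 ^ l := by rw [hu, hl, pow_succ]; ring
  obtain ⟨K, iF, iFt, iC, hK⟩ := exists_K l (by omega)
  have : Fact (∀ r : K, r ^ 2 ≠ 1 + 1 * r) := ⟨no_root K l hodd hK⟩
  have : Finite (QuadraticAlgebra K 1 1) := quad_finite K
  have : Fintype (QuadraticAlgebra K 1 1) := Fintype.ofFinite _
  have : CharP (QuadraticAlgebra K 1 1) 2 := quad_char K
  have hF : Fintype.card (QuadraticAlgebra K 1 1) = (2 ^ l) ^ 2 := by
    rw [← Nat.card_eq_fintype_card, quad_card, hK]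
  obtain ⟨tr, htr⟩ := exists_tr (K := K) l hK
  have hTl : T < l := by omega
  have hcard : ∀ a : Fin T → K, Nat.card (WW l T tr a) = 2 ^ l := by
    intro a
    have := card_sq (tau tr) (tau_nt l tr htr) (WW l T tr a)
      (WW_self_dual l T hodd hTl hK tr htr a)
    rw [hF] at this
    exact Nat.pow_left_injective (by norm_num : (2 : ℕ) ≠ 0) this
  obtain ⟨a, ha⟩ := exists_clique_free (F := QuadraticAlgebra K 1 1)
    (fun a : Fin T → K => WW l T tr a) (fun a => one_mem_WW l T tr a) Q H R hQ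
    (fun a a' haa => lt_of_lt_of_le (WW_inter l T hTl hK tr a a' haa) hQH) le_rfl (by
      rw [← hD, hF, Fintype.card_fun, hK, Fintype.card_fin]
      calc D * ((2 ^ l) ^ 2) ^ (4 * Q + 2 * H) = D * (2 ^ l) ^ (8 * Q + 4 * H) := by
            rw [← pow_mul]; congr 2; ring
        _ < 2 ^ l * (2 ^ l) ^ (8 * Q + 4 * H) := by
            apply Nat.mul_lt_mul_of_pos_right
            · omega
            · positivity
        _ = (2 ^ l) ^ (8 * Q + 4 * H + 1) := by ring
        _ ≤ (2 ^ l) ^ T := Nat.pow_le_pow_right (by positivity) (by omega))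
  have h1 := one_mem_WW l T tr a
  have hpc : (univ.filter (fun p : (QuadraticAlgebra K 1 1 × QuadraticAlgebra K 1 1) ×
      (QuadraticAlgebra K 1 1 × QuadraticAlgebra K 1 1) => AdjW (WW l T tr a) p.1 p.2)).card =
      ((2 ^ l) ^ 2) ^ 2 * (((2 ^ l) ^ 2 - 1) * 2 ^ l) := by
    have := pairs_card (WW l T tr a)
    rw [hF, hcard] at this
    exact this
  have hpc2 : ((2 ^ l) ^ 2) ^ 2 * (((2 ^ l) ^ 2 - 1) * 2 ^ l) =
      2 * ((2 * u) ^ 4 * ((2 * u) ^ 2 - 1) * u) := by
    rw [← h2u]; ring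
  refine ⟨(QuadraticAlgebra K 1 1) × (QuadraticAlgebra K 1 1), inferInstance,
    ⟨AdjW (WW l T tr a), ⟨fun _ _ h => AdjW.symm h1 h⟩, ⟨fun _ h => h.1 rfl⟩⟩, ?_, ?_, ?_⟩
  · intro f hf
    exact ha f hf
  · rw [← hpc2, ← hpc]
  · intro S
    have := cut_bound (tau tr) (tau_sq l tr htr) (tau_nt l tr htr) (WW l T tr a)
      (WW_self_dual l T hodd hTl hK tr htr a) h1 S
    rw [hF, hcard] at this
    have h5 := arith_aux (2 ^ l) _ _ (by positivity) this
    rw [hpc, hpc2, ← h2u] at h5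
    have hk : ∀ x y z : ℕ, 4 * x ≤ 2 * y + z ^ 5 → (x : ℝ) ≤ (y : ℝ) / 2 + (z : ℝ) ^ 5 / 4 := by
      intro x y z hx
      have h6 : (4 : ℝ) * x ≤ 2 * y + (z : ℝ) ^ 5 := by exact_mod_cast hx
      linarith
    exact hk _ _ _ (by convert h5)

/-- For some `R` there are `K_R`-free graphs with every number `m` of edges and surplus at most
`C m ^ (5/7)`. -/
theorem exists_all_m : ∃ (R : ℕ) (C : ℝ), 3 ≤ R ∧ ∀ m : ℕ, Good R m (C * (m : ℝ) ^ ((5 : ℝ) / 7)) := by
  obtain ⟨R, b0, hR, h⟩ := exists_family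
  obtain ⟨C, hC⟩ := all_m R b0 hR h
  exact ⟨R, C, hR, hC⟩

end MCut
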